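import Pool.Agent.Helper23.MC.Goals4

/-!
# Packet MC-NL: lower bound for the norm of the restricted weight
-/

set_option autoImplicit false

open Finset

open scoped Classical

namespace Pool.Agent.Helper59.MC

open Pool.Agent.Helper88.PP (Sf SS ee)
open Pool.Agent.Helper23.MC

/-! ### Sums over functions -/

lemma sum_pi {ι : Type} [Fintype ι] [DecidableEq ι] (S : Finset ℕ) (g : ℕ → ℝ) :
    ∑ p ∈ Fintype.piFinset (fun _ : ι => S), ∏ k, g (p k) =
      (∑ s ∈ S, g s) ^ Fintype.card ι := by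
  rw [← Finset.prod_univ_sum (fun _ : ι => S) (fun _ s => g s), prod_const, card_univ]

lemma moment {ι : Type} [Fintype ι] [DecidableEq ι] (S : Finset ℕ) (g e : ℕ → ℝ) (i : ι) :
    ∑ p ∈ Fintype.piFinset (fun _ : ι => S), e (p i) * ∏ k, g (p k) =
      (∑ s ∈ S, e s * g s) * (∑ s ∈ S, g s) ^ (Fintype.card ι - 1) := by
  have h1 : ∀ p : ι → ℕ, e (p i) * ∏ k, g (p k) =
      ∏ k, (fun (k : ι) (s : ℕ) => if k = i then e s * g s else g s) k (p k) := by
    intro p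
    rw [← Finset.mul_prod_erase univ (fun k => g (p k)) (mem_univ i),
      ← Finset.mul_prod_erase univ
        (fun k => (fun (k : ι) (s : ℕ) => if k = i then e s * g s else g s) k (p k)) (mem_univ i)]
    simp only [if_true]
    rw [mul_assoc]
    congr 2
    refine prod_congr rfl fun k hk => ?_
    rw [if_neg (ne_of_mem_erase hk)]
  rw [sum_congr rfl fun p _ => h1 p,
    ← Finset.prod_univ_sum (fun _ : ι => S) (fun (k : ι) (s : ℕ) => if k = i then e s * g s else g s),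
    ← Finset.mul_prod_erase univ _ (mem_univ i)]
  simp only [if_true]
  congr 1
  rw [prod_congr rfl fun k hk => sum_congr rfl fun s _ => if_neg (ne_of_mem_erase hk), prod_const,
    card_erase_of_mem (mem_univ i), card_univ]

/-! ### The splitting of the index set -/

lemma prod_split {M : Type} [CommMonoid M] (H : Finset ℕ) (j : ℕ) (hj : j ∈ H) (F : H → M) :
    ∏ i, F i = F ⟨j, hj⟩ * ∏ i : ↥(H.erase j), F ⟨i, mem_of_mem_erase i.2⟩ := by
  rw [← Finset.mul_prod_erase univ F (mem_univ (⟨j, hj⟩ : H))]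
  congr 1
  refine (Finset.prod_bij (fun (i : ↥(H.erase j)) _ => (⟨i, mem_of_mem_erase i.2⟩ : H))
    ?_ ?_ ?_ ?_).symm
  · intro i _
    refine mem_erase.2 ⟨?_, mem_univ _⟩
    intro h
    exact ne_of_mem_erase i.2 (congrArg Subtype.val h)
  · intro a _ b _ h
    exact Subtype.ext (congrArg (fun x : H => (x : ℕ)) h)
  · intro b hb
    have h1 : (b : ℕ) ≠ j := fun h => ne_of_mem_erase hb (Subtype.ext h)
    exact ⟨⟨b, mem_erase.2 ⟨h1, b.2⟩⟩, mem_univ _, rfl⟩
  · intro a _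
    rfl

lemma sum_split (H : Finset ℕ) (j : ℕ) (hj : j ∈ H) (F : H → ℕ) :
    ∑ i, F i = F ⟨j, hj⟩ + ∑ i : ↥(H.erase j), F ⟨i, mem_of_mem_erase i.2⟩ := by
  have h := prod_split H j hj (fun i => Multiplicative.ofAdd (F i))
  exact h

/-- the extension of a label function by the label `a` at `j` -/
noncomputable def ex (H : Finset ℕ) (j a : ℕ) (s : ↥(H.erase j) → ℕ) : H → ℕ :=
  fun i => if h : (i : ℕ) = j then a else s ⟨i, mem_erase.2 ⟨h, i.2⟩⟩

lemma ex_j (H : Finset ℕ) (j a : ℕ) (hj : j ∈ H) (s : ↥(H.erase j) → ℕ) :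
    ex H j a s ⟨j, hj⟩ = a := by
  unfold ex; rw [dif_pos rfl]

lemma rs_ex (H : Finset ℕ) (j a : ℕ) (s : ↥(H.erase j) → ℕ) : rs H j (ex H j a s) = s := by
  funext i
  unfold rs ex
  rw [dif_neg (ne_of_mem_erase i.2)]

lemma ext_rs {H : Finset ℕ} {j : ℕ} (hj : j ∈ H) {s t : H → ℕ} (h : rs H j s = rs H j t)
    (h' : s ⟨j, hj⟩ = t ⟨j, hj⟩) : s = t := by
  funext i
  by_cases hi : (i : ℕ) = j
  · have : i = ⟨j, hj⟩ := Subtype.ext hi
    rw [this]; exact h'
  · exact congrFun h ⟨i, mem_erase.2 ⟨hi, i.2⟩⟩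

/-! ### The labels -/

lemma one_le_of_mem {z X s : ℕ} (h : s ∈ SS z X) : 1 ≤ s :=
  (mem_Ico.1 (mem_filter.1 h).1).1

lemma SS_mono {z X Y : ℕ} (h : X ≤ Y) : SS z X ⊆ SS z Y := by
  intro s hs
  unfold SS at hs ⊢
  rw [mem_filter, mem_Ico] at hs ⊢
  exact ⟨⟨hs.1.1, hs.1.2.trans_le h⟩, hs.2⟩

lemma ee_le {z M s : ℕ} (_hz : 2 ≤ z) (h : s ∈ SS z (z ^ M)) : ee z s ≤ M := by
  have h1 := mem_Ico.1 (mem_filter.1 h).1
  unfold ee
  exact Nat.log_lt_of_lt_pow (by omega) h1.2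

lemma le_pow_ee {z s : ℕ} (hz : 2 ≤ z) : s ≤ z ^ ee z s :=
  (Nat.lt_pow_succ_log_self (by omega) s).le

theorem nl : StmtNL := by
  intro E z β hE hz hβ H hH2 hHE j hj I1 I2 J C hI1 hI2 hJ hC hC1
  obtain ⟨M, hM⟩ : ∃ M : ℕ, M = E / 64 := ⟨_, rfl⟩
  have hM1 : 1 ≤ M := by omega
  have hMr : (0 : ℝ) < M := by exact_mod_cast hM1
  have hE0 : (0 : ℝ) < E := by exact_mod_cast (by omega : 0 < E)
  rw [← hM] at hHE hI1 hI2 hJ ⊢
  obtain ⟨S, hS⟩ : ∃ S : Finset ℕ, S = SS z (z ^ M) := ⟨_, rfl⟩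
  rw [← hS] at hI1 hI2 hJ
  obtain ⟨f, hf⟩ : ∃ f : ℕ → ℝ, f = fun s => 1 / ((Nat.totient s : ℝ) * (E + β * ee z s)) :=
    ⟨_, rfl⟩
  obtain ⟨g, hg⟩ : ∃ g : ℕ → ℝ, g = fun s => 1 / ((Nat.totient s : ℝ) * (E + β * ee z s) ^ 2) :=
    ⟨_, rfl⟩
  have hf0 : ∀ s, 0 ≤ f s := fun s => by rw [hf]; positivity
  have hg0 : ∀ s, 0 ≤ g s := fun s => by rw [hg]; positivity
  have hI1f : I1 = ∑ s ∈ S, f s := by rw [hI1, hf]
  have hI2g : I2 = ∑ s ∈ S, g s := by rw [hI2, hg]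
  have hJg : J = ∑ s ∈ S, (ee z s : ℝ) * g s := by
    rw [hJ, hg]
    refine sum_congr rfl fun s _ => ?_
    rw [mul_one_div]
  have hfg : ∀ s, 1 ≤ s → f s ^ 2 * (Nat.totient s : ℝ) = g s := by
    intro s hs
    have h1 : (0 : ℝ) < Nat.totient s := by exact_mod_cast Nat.totient_pos.2 hs
    have h2 : (0 : ℝ) < E + β * ee z s := by positivity
    rw [hf, hg]
    field_simp
  have hfE : ∀ s, 1 ≤ s → f s ≤ 1 / ((E : ℝ) * (Nat.totient s : ℝ)) := by
    intro s hs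
    have h1 : (0 : ℝ) < Nat.totient s := by exact_mod_cast Nat.totient_pos.2 hs
    rw [hf]
    refine one_div_le_one_div_of_le (by positivity) ?_
    rw [mul_comm (E : ℝ)]
    refine mul_le_mul_of_nonneg_left ?_ h1.le
    have : (0 : ℝ) ≤ β * ee z s := by positivity
    linarith
  have hI10 : 0 ≤ I1 := by rw [hI1f]; exact sum_nonneg fun s _ => hf0 s
  have hI20 : 0 ≤ I2 := by rw [hI2g]; exact sum_nonneg fun s _ => hg0 s
  -- the label functions
  have hTH : ∀ t, t ∈ TH E z H ↔ (∀ i, t i ∈ S) ∧ ∑ i, ee z (t i) ≤ E / 32 := by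
    intro t
    unfold TH
    rw [mem_filter, Fintype.mem_piFinset, ← hM, ← hS]
  have hkH : ∀ t, kH E z β H t = f (t ⟨j, hj⟩) * ∏ i, f (rs H j t i) := by
    intro t
    have h1 : kH E z β H t = ∏ i, f (t i) := by rw [hf]; rfl
    rw [h1, prod_split H j hj (fun i => f (t i))]
    rfl
  have hsee : ∀ t : H → ℕ, ∑ i, ee z (t i) = ee z (t ⟨j, hj⟩) + ∑ i, ee z (rs H j t i) := by
    intro t
    rw [sum_split H j hj (fun i => ee z (t i))]
    rfl
  -- the value of the coefficient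
  have hkj : ∀ s, kj H j (TH E z H) (kH E z β H) s =
      (∑ a ∈ ((TH E z H).filter (fun t => rs H j t = s)).image (fun t => t ⟨j, hj⟩), f a) *
        ∏ i, f (s i) := by
    intro s
    unfold kj
    rw [sum_image, sum_mul]
    · refine sum_congr rfl fun t ht => ?_
      rw [hkH t, (mem_filter.1 ht).2]
    · intro a ha b hb hab
      have h1 := (mem_filter.1 (mem_coe.1 ha)).2
      have h2 := (mem_filter.1 (mem_coe.1 hb)).2
      exact ext_rs hj (h1.trans h2.symm) hab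
  have hsub : ∀ s : ↥(H.erase j) → ℕ,
      ((TH E z H).filter (fun t => rs H j t = s)).image (fun t => t ⟨j, hj⟩) ⊆ S := by
    intro s a ha
    obtain ⟨t, ht, rfl⟩ := mem_image.1 ha
    exact ((hTH t).1 (mem_filter.1 ht).1).1 _
  have hkj0 : ∀ s, 0 ≤ kj H j (TH E z H) (kH E z β H) s := by
    intro s
    rw [hkj]
    exact mul_nonneg (sum_nonneg fun a _ => hf0 a) (prod_nonneg fun i _ => hf0 _)
  have hkjle : ∀ s, kj H j (TH E z H) (kH E z β H) s ≤ I1 * ∏ i, f (s i) := by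
    intro s
    rw [hkj, hI1f]
    exact mul_le_mul_of_nonneg_right (sum_le_sum_of_subset_of_nonneg (hsub s) fun a _ _ => hf0 a)
      (prod_nonneg fun i _ => hf0 _)
  have hTj : ∀ s, s ∈ Tj H j (TH E z H) → (∀ i, s i ∈ S) ∧ ∑ i, ee z (s i) ≤ E / 32 := by
    intro s hs
    unfold Tj at hs
    obtain ⟨t, ht, rfl⟩ := mem_image.1 hs
    have h1 := (hTH t).1 ht
    refine ⟨fun i => h1.1 _, ?_⟩
    have h2 := hsee t
    omega
  -- extensions
  have hex : ∀ s : ↥(H.erase j) → ℕ, (∀ i, s i ∈ S) → ∑ i, ee z (s i) ≤ M → ∀ a ∈ S,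
      ex H j a s ∈ (TH E z H).filter (fun t => rs H j t = s) := by
    intro s hs hse a ha
    rw [mem_filter]
    refine ⟨(hTH _).2 ⟨?_, ?_⟩, rs_ex H j a s⟩
    · intro i
      unfold ex
      split_ifs with h
      · exact ha
      · exact hs _
    · rw [hsee, ex_j, rs_ex]
      have h1 : ee z a ≤ M := ee_le hz (hS ▸ ha)
      omega
  refine ⟨⟨?_, ?_, ?_⟩, ?_⟩
  · intro s hs i
    refine SS_mono (Nat.pow_le_pow_right (by omega) (by omega)) (hS ▸ (hTj s hs).1 i)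
  · intro s hs
    calc ∏ i, s i ≤ ∏ i, z ^ ee z (s i) := prod_le_prod' fun i _ => le_pow_ee hz
      _ = z ^ ∑ i, ee z (s i) := prod_pow_eq_pow_sum _ _ _
      _ ≤ z ^ (E / 32) := Nat.pow_le_pow_right (by omega) (hTj s hs).2
  · intro s hs
    rw [abs_of_nonneg (hkj0 s)]
    refine (hkjle s).trans ?_
    refine mul_le_mul hC (prod_le_prod (fun i _ => hf0 _) fun i _ => ?_)
      (prod_nonneg fun i _ => hf0 _) (by linarith)
    exact hfE _ (one_le_of_mem (hS ▸ (hTj s hs).1 i))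
  · -- the lower bound
    have hcard : Fintype.card ↥(H.erase j) = H.card - 1 := by
      rw [Fintype.card_coe, card_erase_of_mem hj]
    obtain ⟨A, hA⟩ : ∃ A : Finset (↥(H.erase j) → ℕ),
      A = Fintype.piFinset (fun _ : ↥(H.erase j) => S) := ⟨_, rfl⟩
    have hAm : ∀ s, s ∈ A ↔ ∀ i, s i ∈ S := fun s => by rw [hA, Fintype.mem_piFinset]
    have htot : ∑ s ∈ A, ∏ i, g (s i) = I2 ^ (H.card - 1) := by
      rw [hA, sum_pi S g, hcard, hI2g]
    have hmom : ∑ s ∈ A, (∑ i, (ee z (s i) : ℝ)) * ∏ i, g (s i) =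
        ((H.card - 1 : ℕ) : ℝ) * (J * I2 ^ (H.card - 2)) := by
      calc ∑ s ∈ A, (∑ i, (ee z (s i) : ℝ)) * ∏ i, g (s i)
          = ∑ s ∈ A, ∑ i, (ee z (s i) : ℝ) * ∏ i, g (s i) := by
            refine sum_congr rfl fun s _ => ?_
            rw [sum_mul]
        _ = ∑ i : ↥(H.erase j), ∑ s ∈ A, (ee z (s i) : ℝ) * ∏ i, g (s i) := sum_comm
        _ = ∑ i : ↥(H.erase j), J * I2 ^ (H.card - 2) := by
            refine sum_congr rfl fun i _ => ?_
            rw [hA, moment S g (fun s => (ee z s : ℝ)) i, hcard, hJg, hI2g]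
            congr 2
        _ = _ := by rw [sum_const, card_univ, hcard, nsmul_eq_mul]
    have hsmall : I2 ^ (H.card - 1) - ((H.card - 1 : ℕ) : ℝ) / (M : ℝ) * J * I2 ^ (H.card - 2) ≤
        ∑ s ∈ A.filter (fun s => ∑ i, ee z (s i) ≤ M), ∏ i, g (s i) := by
      have h1 := sum_filter_add_sum_filter_not A (fun s => ∑ i, ee z (s i) ≤ M)
        (fun s => ∏ i, g (s i))
      rw [htot] at h1
      have h2 : (M : ℝ) * ∑ s ∈ A.filter (fun s => ¬ ∑ i, ee z (s i) ≤ M), ∏ i, g (s i) ≤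
          ((H.card - 1 : ℕ) : ℝ) * (J * I2 ^ (H.card - 2)) := by
        rw [← hmom, mul_sum]
        refine (sum_le_sum fun s hs => ?_).trans
          (sum_le_sum_of_subset_of_nonneg (filter_subset _ _) fun s _ _ => ?_)
        · refine mul_le_mul_of_nonneg_right ?_ (prod_nonneg fun i _ => hg0 _)
          have h3 := (mem_filter.1 hs).2
          have h4 : M ≤ ∑ i, ee z (s i) := by omega
          exact_mod_cast h4
        · exact mul_nonneg (sum_nonneg fun i _ => by positivity) (prod_nonneg fun i _ => hg0 _)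
      have h5 : ∑ s ∈ A.filter (fun s => ¬ ∑ i, ee z (s i) ≤ M), ∏ i, g (s i) ≤
          ((H.card - 1 : ℕ) : ℝ) / (M : ℝ) * J * I2 ^ (H.card - 2) := by
        have h6 : ((H.card - 1 : ℕ) : ℝ) / (M : ℝ) * J * I2 ^ (H.card - 2) =
            (((H.card - 1 : ℕ) : ℝ) * (J * I2 ^ (H.card - 2))) / M := by ring
        rw [h6, le_div_iff₀ hMr]
        linarith
      linarith
    refine (mul_le_mul_of_nonneg_left hsmall (by positivity)).trans ?_
    rw [mul_sum]
    unfold NH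
    have hsubT : A.filter (fun s => ∑ i, ee z (s i) ≤ M) ⊆ Tj H j (TH E z H) := by
      intro s hs
      rw [mem_filter, hAm] at hs
      have h1 := hex s hs.1 hs.2 1 ?_
      · unfold Tj
        exact mem_image.2 ⟨_, (mem_filter.1 h1).1, (mem_filter.1 h1).2⟩
      · rw [hS]
        unfold SS
        rw [mem_filter, mem_Ico]
        refine ⟨⟨le_rfl, Nat.one_lt_pow (by omega) (by omega)⟩, ?_⟩
        refine ⟨squarefree_one, fun p hp hp1 => ?_⟩
        exact absurd (Nat.dvd_one.1 hp1) hp.one_lt.ne'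
    refine (sum_le_sum fun s hs => ?_).trans
      (sum_le_sum_of_subset_of_nonneg hsubT fun s _ _ => by positivity)
    rw [mem_filter, hAm] at hs
    have h1 : I1 * ∏ i, f (s i) ≤ kj H j (TH E z H) (kH E z β H) s := by
      rw [hkj, hI1f]
      refine mul_le_mul_of_nonneg_right (sum_le_sum_of_subset_of_nonneg ?_ fun a _ _ => hf0 a)
        (prod_nonneg fun i _ => hf0 _)
      intro a ha
      refine mem_image.2 ⟨_, hex s hs.1 hs.2 a ha, ex_j H j a hj s⟩
    have h2 : (I1 * ∏ i, f (s i)) ^ 2 ≤ kj H j (TH E z H) (kH E z β H) s ^ 2 :=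
      pow_le_pow_left₀ (mul_nonneg hI10 (prod_nonneg fun i _ => hf0 _)) h1 2
    calc I1 ^ 2 * ∏ i, g (s i) = (I1 * ∏ i, f (s i)) ^ 2 * ∏ i, (Nat.totient (s i) : ℝ) := by
          rw [mul_pow, mul_assoc, ← prod_pow, ← prod_mul_distrib]
          congr 1
          refine prod_congr rfl fun i _ => ?_
          exact (hfg _ (one_le_of_mem (hS ▸ hs.1 i))).symm
      _ ≤ _ := mul_le_mul_of_nonneg_right h2 (by positivity)

end Pool.Agent.Helper59.MC
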